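import Pool.Agent.Run7.h225.HP.Iface
import Pool.Agent.Y120.H.Res

/-!
# HP_LT: relations which are linear in additional functions
-/

set_option autoImplicit false

open PowerSeries Pool.Agent.Y113 Pool.Agent.Y120.GF Pool.Agent.Y120.GH

namespace Pool.Agent.Run7.h824.HP

theorem lt : Pool.Agent.Run7.h225.HP.S_LT := by
  classical
  intro k δ D r h ω _ y hsz hszy hfam
  choose B a M ha hM hOne using hfam
  choose C₀ hC₀ using hsz
  choose C₁ hC₁ using hszy
  choose n hn using fun i => no_roots (ha i)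
  obtain ⟨c, C, hc, hC, hcount⟩ := count_ks D k (fun i => (B i × ω i) × Fin (δ + 1))
    (fun i => XF δ fun p : B i × ω i => yw (h i) p.1.1 * y i p.2) hOne
  -- the bound for small integers
  obtain ⟨w, hw⟩ : ∃ w : ℕ, ∀ i, |C₀ i| ≤ w ∧ n i ≤ w ∧ |C₁ i| ≤ w := by
    choose m hm using fun i => exists_nat_ge |C₀ i|
    choose m' hm' using fun i => exists_nat_ge |C₁ i|
    refine ⟨∑ i, (m i + n i + m' i), fun i => ?_⟩
    have h1 : m i + n i + m' i ≤ ∑ i, (m i + n i + m' i) :=
      Finset.single_le_sum (f := fun i => m i + n i + m' i) (fun _ _ => Nat.zero_le _) (Finset.mem_univ i)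
    refine ⟨?_, ?_, ?_⟩
    · have h2 : ((m i : ℕ) : ℝ) ≤ ((∑ i, (m i + n i + m' i) : ℕ) : ℝ) := by exact_mod_cast (by omega)
      exact (hm i).trans h2
    · omega
    · have h2 : ((m' i : ℕ) : ℝ) ≤ ((∑ i, (m i + n i + m' i) : ℕ) : ℝ) := by exact_mod_cast (by omega)
      exact (hm' i).trans h2
  refine ⟨c, C + (w + 1), hc, by positivity, ?_⟩
  intro V _ hV x N hN S hS
  have hN1 : (1 : ℝ) ≤ N := by exact_mod_cast hN
  set Sa := S.filter fun t => ∃ i, t i ≤ w with hSa
  set Sb := S.filter fun t => ¬ ∃ i, t i ≤ w with hSb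
  have hsum : Sa.card + Sb.card = S.card := Finset.card_filter_add_card_filter_not (s := S) (fun t => ∃ i, t i ≤ w)
  have hA : (Sa.card : ℝ) ≤ (w + 1) * (N : ℝ) ^ (k - 1) * ∑ i : Fin k, (1 + N / ((x i : ℝ) + N) ^ c) := by
    have e1 : Sa ⊆ Finset.univ.biUnion fun i : Fin k =>
        Fintype.piFinset fun j : Fin k => if j = i then Finset.range (w + 1) else Finset.Ioc (x j) (x j + N) := by
      intro t ht
      obtain ⟨htS, i, hi⟩ := Finset.mem_filter.1 ht
      rw [Finset.mem_biUnion]
      refine ⟨i, Finset.mem_univ _, ?_⟩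
      rw [Fintype.mem_piFinset]
      intro j
      split_ifs with hj
      · subst hj
        exact Finset.mem_range.2 (by omega)
      · exact Finset.mem_Ioc.2 ((hS t htS).1 j)
    have e2 : Sa.card ≤ ∑ _i : Fin k, (w + 1) * N ^ (k - 1) := by
      refine (Finset.card_le_card e1).trans (Finset.card_biUnion_le.trans (Finset.sum_le_sum fun i _ => ?_))
      rw [Fintype.card_piFinset, ← Finset.mul_prod_erase _ _ (Finset.mem_univ i), if_pos rfl, Finset.card_range]
      refine Nat.mul_le_mul_left _ ?_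
      have e3 : ∀ j ∈ Finset.univ.erase i, (if j = i then Finset.range (w + 1) else Finset.Ioc (x j) (x j + N)).card = N := by
        intro j hj
        rw [if_neg (Finset.ne_of_mem_erase hj), Nat.card_Ioc, Nat.add_sub_cancel_left]
      rw [Finset.prod_congr rfl e3, Finset.prod_const, Finset.card_erase_of_mem (Finset.mem_univ i), Finset.card_univ,
        Fintype.card_fin]
    have e4 : (Sa.card : ℝ) ≤ ∑ _i : Fin k, ((w : ℝ) + 1) * (N : ℝ) ^ (k - 1) := by exact_mod_cast e2
    refine e4.trans ?_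
    rw [Finset.mul_sum]
    refine Finset.sum_le_sum fun i _ => ?_
    refine le_mul_of_one_le_right (by positivity) ?_
    have : 0 ≤ (N : ℝ) / ((x i : ℝ) + N) ^ c := by positivity
    linarith
  have hB : (Sb.card : ℝ) ≤ C * (N : ℝ) ^ (k - 1) * ∑ i : Fin k, (1 + N / ((x i : ℝ) + N) ^ c) := by
    refine hcount V hV x N hN Sb fun t ht => ?_
    obtain ⟨htS, hbig⟩ := Finset.mem_filter.1 ht
    push Not at hbig
    obtain ⟨hbox, P, hPd, hPV, hP0, u₀, hPI⟩ := hS t htS
    refine ⟨hbox, ?_⟩
    have hane : ∀ i, sq (t i) (a i) ≠ 0 := by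
      intro i h0
      have h1 := hn i (t i) (by
        have := hbig i
        have := (hw i).2.1
        exact_mod_cast (by omega : n i < t i))
      rw [aeval_sq, h0] at h1
      simp at h1
    have hCh : ∀ i j m, |((coeff m (h i j) : ℚ) : ℝ)| ≤ |C₀ i| ^ (m + 1) := fun i j m => by
      refine (hC₀ i j m).trans ?_
      rw [← abs_pow]
      exact le_abs_self _
    have hlt : ∀ i, |C₀ i| < (t i : ℝ) := fun i => by
      refine lt_of_le_of_lt (hw i).1 ?_
      exact_mod_cast hbig i
    have hval := fun u => val_expand (B := B) hM hane (C := fun i => |C₀ i|) (fun i => abs_nonneg _) hCh hlt (P u) (hPd u)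
    have hcy : ∀ i j, Cv (t i : ℝ) (y i j) := by
      intro i j
      refine Cv.of_bound (A := |C₁ i|) (B := |C₁ i|) ?_ (abs_nonneg _) ?_ fun m => ?_
      · exact lt_of_le_of_lt (abs_nonneg _) (hlt i)
      · refine lt_of_le_of_lt (hw i).2.2 ?_
        exact_mod_cast hbig i
      · refine (hC₁ i j m).trans ?_
        rw [← pow_succ', ← abs_pow]
        exact le_abs_self _
    let e : (∀ i, ω i) × (∀ i, B i × Fin (δ + 1)) ≃ (∀ i, (B i × ω i) × Fin (δ + 1)) :=
      { toFun := fun q i => (((q.2 i).1, q.1 i), (q.2 i).2)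
        invFun := fun b => (fun i => (b i).1.2, fun i => ((b i).1.1, (b i).2))
        left_inv := fun _ => rfl
        right_inv := fun _ => rfl }
    refine ⟨fun b => vv a M t (P (e.symm b).1) (e.symm b).2, fun b => vv_mem a M t (hPV _) _, fun hv => ?_, ?_⟩
    · refine hPI (univ_mem hM hane (P u₀) (hPd u₀) ?_)
      funext p
      have h1 := congrFun hv (e (u₀, p))
      rw [Equiv.symm_apply_apply] at h1
      exact h1
    · rw [← Equiv.sum_comp e, Fintype.sum_prod_type, ← hP0]
      refine Finset.sum_congr rfl fun u _ => ?_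
      rw [hval u, Finset.sum_mul]
      refine Finset.sum_congr rfl fun p _ => ?_
      beta_reduce
      rw [Equiv.symm_apply_apply, mul_assoc]
      refine congrArg (fun z => vv a M t (P u) p * z) ?_
      rw [← Finset.prod_mul_distrib]
      refine Finset.prod_congr rfl fun i _ => ?_
      have ht0 : (0 : ℝ) < t i := lt_of_le_of_lt (abs_nonneg _) (hlt i)
      show ((ev (t i : ℝ) (yw (h i) (p i).1.1 * y i (u i)) : ℝ) : ℂ) * (((Real.log (t i) : ℝ) : ℂ)) ^ ((p i).2 : ℕ) =
        ((ev (t i : ℝ) (yw (h i) (p i).1.1) : ℝ) : ℂ) * (((Real.log (t i) : ℝ) : ℂ)) ^ ((p i).2 : ℕ) *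
          ((ev (t i : ℝ) (y i (u i)) : ℝ) : ℂ)
      rw [Cv.ev_mul ht0 (ev_yw (abs_nonneg _) (hCh i) (hlt i) _).1 (hcy i (u i)), Complex.ofReal_mul]
      ring
  have h5 : (S.card : ℝ) = Sa.card + Sb.card := by exact_mod_cast hsum.symm
  rw [h5]
  have h6 := add_le_add hA hB
  refine h6.trans (le_of_eq ?_)
  ring

end Pool.Agent.Run7.h824.HP
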