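import Pool.Agent.Run7.h225.HP.Iface

/-!
# HP_NL: from functions on the interval to power series
-/

set_option autoImplicit false

open PowerSeries Matrix
open Pool.Agent.Y113 hiding Bm
open Pool.Agent.Y120.GF Pool.Agent.Y120.GH Pool.Agent.Y119.HZ
open Pool.Agent.Y119.HY (cm E Hf Yf Rel E_mul_neg Vr)
open Pool.Agent.Run7.h225.HG

namespace Pool.Agent.Run7.h824.HP

lemma ps_zero {f : ℚ⟦X⟧} (hc : ∀ t : ℝ, 1 < t → Cv t f) (h0 : ∀ t : ℝ, 1 < t → ev t f = 0) : f = 0 := by
  classical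
  by_contra hne
  set a : ℕ → ℝ := fun k => ((coeff k f : ℚ) : ℝ) with ha
  have hex : ∃ m, a m ≠ 0 := by
    by_contra h
    push Not at h
    refine hne (PowerSeries.ext fun m => ?_)
    have h1 : ((coeff m f : ℚ) : ℝ) = 0 := h m
    rw [map_zero]
    exact_mod_cast h1
  obtain ⟨m, hm, hlt⟩ : ∃ m, a m ≠ 0 ∧ ∀ k < m, a k = 0 :=
    ⟨Nat.find hex, Nat.find_spec hex, fun k hk => by
      by_contra h
      exact Nat.find_min hex hk h⟩
  have hs : Summable fun k => |a (k + (m + 1))| * (1 / 2 : ℝ) ^ (k + (m + 1)) :=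
    (summable_nat_add_iff (f := fun k => |a k| * (1 / 2 : ℝ) ^ k) (m + 1)).2 (hc 2 (by norm_num))
  set C := ∑' k, |a (k + (m + 1))| * (1 / 2 : ℝ) ^ (k + (m + 1)) with hC
  have hC0 : 0 ≤ C := tsum_nonneg fun k => by positivity
  have key : ∀ x : ℝ, 0 < x → x ≤ 1 / 2 → |a m| ≤ C * 2 ^ (m + 1) * x := by
    intro x hx hx2
    have ht : 1 < 1 / x := by
      rw [lt_div_iff₀ hx]
      linarith
    have e1 : ∑' k, a k * x ^ k = 0 := by
      have h1 := h0 (1 / x) ht
      unfold ev at h1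
      rw [one_div_one_div] at h1
      exact h1
    have hsx : Summable fun k => a k * x ^ k := by
      have h1 := Cv.summable (by positivity) (hc (1 / x) ht)
      rw [one_div_one_div] at h1
      exact h1
    have e2 := hsx.sum_add_tsum_nat_add (m + 1)
    rw [e1, Finset.sum_range_succ, Finset.sum_eq_zero (fun k hk => by
      rw [hlt k (Finset.mem_range.1 hk), zero_mul]), zero_add] at e2
    have e3 : |a m| * x ^ m = |∑' k, a (k + (m + 1)) * x ^ (k + (m + 1))| := by
      have e4 : a m * x ^ m = -∑' k, a (k + (m + 1)) * x ^ (k + (m + 1)) := by linarith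
      have e5 : |a m * x ^ m| = |a m| * x ^ m := by rw [abs_mul, abs_of_pos (pow_pos hx m)]
      rw [← e5, e4, abs_neg]
    have e5 : ∀ k, ‖a (k + (m + 1)) * x ^ (k + (m + 1))‖ ≤
        (|a (k + (m + 1))| * (1 / 2 : ℝ) ^ (k + (m + 1))) * (2 * x) ^ (m + 1) := by
      intro k
      rw [Real.norm_eq_abs, abs_mul, abs_of_pos (pow_pos hx _), mul_assoc]
      refine mul_le_mul_of_nonneg_left ?_ (abs_nonneg _)
      have e6 : x ^ (k + (m + 1)) = (1 / 2 : ℝ) ^ (k + (m + 1)) * (2 * x) ^ (k + (m + 1)) := by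
        rw [← mul_pow]
        congr 1
        ring
      rw [e6]
      refine mul_le_mul_of_nonneg_left ?_ (by positivity)
      exact pow_le_pow_of_le_one (by positivity) (by linarith) (by omega)
    have e7 : |∑' k, a (k + (m + 1)) * x ^ (k + (m + 1))| ≤ C * (2 * x) ^ (m + 1) := by
      have h1 := hs.mul_right ((2 * x) ^ (m + 1))
      have h2 := tsum_of_norm_bounded h1.hasSum e5
      rw [Real.norm_eq_abs] at h2
      refine h2.trans (le_of_eq ?_)
      rw [tsum_mul_right]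
    rw [← e3] at e7
    have e8 : C * (2 * x) ^ (m + 1) = (C * 2 ^ (m + 1) * x) * x ^ m := by
      rw [mul_pow]
      ring
    rw [e8] at e7
    exact le_of_mul_le_mul_right e7 (pow_pos hx m)
  have ham : 0 < |a m| := abs_pos.2 hm
  set K := C * 2 ^ (m + 1) with hK
  have hK0 : 0 ≤ K := by positivity
  have h1 := key (min (1 / 2) (|a m| / (2 * (K + 1)))) (lt_min (by norm_num) (by positivity)) (min_le_left _ _)
  have h2 : K * min (1 / 2) (|a m| / (2 * (K + 1))) ≤ K * (|a m| / (2 * (K + 1))) :=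
    mul_le_mul_of_nonneg_left (min_le_right _ _) hK0
  have h3 : K * (|a m| / (2 * (K + 1))) ≤ |a m| / 2 := by
    rw [mul_div_assoc', div_le_div_iff₀ (by positivity) (by norm_num)]
    nlinarith
  linarith

lemma mz_one (k : ℕ) : Pool.Agent.Run7.h225.HP.mz [1] k = 1 / (k : ℚ) := by
  show (∑ j ∈ Finset.range k, Pool.Agent.Run7.h225.HP.mz [] j) / (k : ℚ) ^ 1 = _
  have h1 : ∀ j, Pool.Agent.Run7.h225.HP.mz [] j = if j = 0 then 1 else 0 := fun j => rfl
  simp only [h1]
  rcases Nat.eq_zero_or_pos k with rfl | hk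
  · simp
  · rw [Finset.sum_ite_eq' (Finset.range k) 0, if_pos (Finset.mem_range.2 hk), pow_one]

lemma ev_li {x : ℝ} (hx : 0 < x) (hx1 : x < 1) : Cv (1 / x) (Pool.Agent.Run7.h225.HP.li [1]) ∧
    ev (1 / x) (Pool.Agent.Run7.h225.HP.li [1]) = -Real.log (1 - x) := by
  have hco : ∀ k, ((coeff k (Pool.Agent.Run7.h225.HP.li [1]) : ℚ) : ℝ) = 1 / (k : ℝ) := by
    intro k
    unfold Pool.Agent.Run7.h225.HP.li
    rw [PowerSeries.coeff_mk, mz_one]
    push_cast
    rfl
  have h1 := Real.hasSum_pow_div_log_of_abs_lt_one (x := x) (by rw [abs_of_pos hx]; exact hx1)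
  have h2 : HasSum (fun k : ℕ => 1 / (k : ℝ) * x ^ k) (-Real.log (1 - x)) := by
    refine (hasSum_nat_add_iff' 1).1 ?_
    have h3 : -Real.log (1 - x) - ∑ i ∈ Finset.range 1, 1 / (i : ℝ) * x ^ i = -Real.log (1 - x) := by simp
    rw [h3]
    have h4 : (fun k : ℕ => 1 / ((k + 1 : ℕ) : ℝ) * x ^ (k + 1)) = fun k : ℕ => x ^ (k + 1) / ((k : ℝ) + 1) := by
      funext k
      push_cast
      ring
    rw [h4]
    exact h1
  refine ⟨?_, ?_⟩
  · unfold Cv
    rw [one_div_one_div]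
    refine h2.summable.congr fun k => ?_
    rw [hco, abs_of_nonneg (by positivity)]
  · unfold ev
    rw [one_div_one_div]
    simp only [hco]
    exact h2.tsum_eq

theorem nl : Pool.Agent.Run7.h225.HP.S_NL := by
  intro n N B H W hS hY P R hPR
  have hN : cm N ^ n = 0 := SYS2.cm_nil hS
  have hval : ∀ (Q : MvPolynomial (Fin (n * n)) (Polynomial ℚ)) (x : ℝ), 0 < x → x < 1 →
      Pool.Agent.Y119.HY.ev (PR (cm N) Q) x (Complex.log x) (Yf (cm N) (Hcg H) (x : ℂ)) =
        ((ev (1 / x) (MvPolynomial.aeval (hfg H) Q) : ℝ) : ℂ) := by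
    intro Q x hx hx1
    rw [ev_PR]
    have e1 : Yf (cm N) (Hcg H) (x : ℂ) * E (cm N) (-Complex.log x) = Hf (Hcg H) (x : ℂ) := by
      unfold Yf
      rw [Matrix.mul_assoc, E_mul_neg hN, mul_one]
    rw [e1]
    have hx' : 1 < 1 / x := by rw [lt_div_iff₀ hx]; linarith
    rw [(SYS2.ev_aeval_s hS hx' Q).2, one_div_one_div]
    have h3 : (fun j => ((ev (1 / x) (hfg H j) : ℝ) : ℂ)) = fun j => Hf (Hcg H) (x : ℂ) (ix n j).1 (ix n j).2 := by
      funext j
      unfold hfg
      rw [SYS2.ev_H, one_div_one_div]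
    rw [h3]
  have hrel : PR (cm N) P ∈ Rel (Yf (cm N) (Hcg H)) := by
    refine hY _ (-(PR (cm N) R)) fun x hx hx1 => ?_
    have hneg : Pool.Agent.Y119.HY.ev (-(PR (cm N) R)) x (Complex.log x) (Yf (cm N) (Hcg H) x) =
        -Pool.Agent.Y119.HY.ev (PR (cm N) R) x (Complex.log x) (Yf (cm N) (Hcg H) x) := by
      unfold Pool.Agent.Y119.HY.ev
      rw [map_neg]
    have hx0 : 0 < 1 / x := by positivity
    have hx' : 1 < 1 / x := by rw [lt_div_iff₀ hx]; linarith
    rw [hneg, hval P x hx hx1, hval R x hx hx1, ← hPR,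
      Cv.ev_mul hx0 (SYS2.ev_aeval_s hS hx' P).1 (ev_li hx hx1).1, (ev_li hx hx1).2]
    have hl : Complex.log (1 - (x : ℂ)) = ((Real.log (1 - x) : ℝ) : ℂ) := by
      rw [Complex.ofReal_log (by linarith)]
      push_cast
      rfl
    rw [hl]
    push_cast
    ring
  refine ps_zero (fun t ht => (SYS2.ev_aeval_s hS ht P).1) fun t ht => ?_
  have ht0 : 0 < t := by linarith
  have hx : 0 < 1 / t := by positivity
  have hx1 : 1 / t < 1 := by rw [div_lt_one ht0]; exact ht
  have h1 := hrel (1 / t) hx hx1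
  rw [hval P (1 / t) hx hx1, one_div_one_div] at h1
  exact_mod_cast h1

end Pool.Agent.Run7.h824.HP
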